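import Mathlib

/-!
# Covering the edges of a bipartite graph by matchings of a given size: the matrix form

A nonnegative integer matrix with all row and column sums equal to `k` is a sum of `k` permutation
matrices; a bipartite relation which satisfies the counting conditions is covered by `k` partial
matchings of size `m`.
-/

set_option autoImplicit false

namespace Pool.Agent.Q176.EX

open Finset

/-- A square matrix of natural numbers with row and column sums `k` is a sum of `k` permutation
matrices. -/
theorem decomp {R C : Type} [Fintype R] [Fintype C] [DecidableEq R] [DecidableEq C]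
    (hcard : Fintype.card R = Fintype.card C) :
    ∀ (k : ℕ) (W : R → C → ℕ), (∀ r, ∑ c, W r c = k) → (∀ c, ∑ r, W r c = k) →
      ∃ f : Fin k → R → C, (∀ i, Function.Bijective (f i)) ∧ (∀ i r, 0 < W r (f i r)) ∧
        ∀ r c, 0 < W r c → ∃ i, f i r = c := by
  intro k
  induction k with
  | zero =>
    intro W hW _
    refine ⟨fun i => i.elim0, fun i => i.elim0, fun i => i.elim0, fun r c h => ?_⟩
    have h1 := hW r
    rw [Finset.sum_eq_zero_iff] at h1
    have h2 := h1 c (mem_univ _)
    omega
  | succ k ih =>
    intro W hr hc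
    have hall : ∀ S : Finset R,
        S.card ≤ (S.biUnion fun r => univ.filter fun c => 0 < W r c).card := by
      intro S
      set N := S.biUnion fun r => univ.filter fun c => 0 < W r c with hN
      have h1 : (k + 1) * S.card = ∑ r ∈ S, ∑ c ∈ N, W r c := by
        rw [mul_comm, ← smul_eq_mul, ← Finset.sum_const]
        refine Finset.sum_congr rfl fun r hrS => ?_
        rw [← hr r]
        symm
        refine Finset.sum_subset (subset_univ _) fun c _ hcN => ?_
        by_contra h0
        refine hcN (mem_biUnion.2 ⟨r, hrS, mem_filter.2 ⟨mem_univ _, Nat.pos_of_ne_zero h0⟩⟩)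
      have h2 : ∑ r ∈ S, ∑ c ∈ N, W r c ≤ (k + 1) * N.card := by
        rw [Finset.sum_comm, mul_comm, ← smul_eq_mul, ← Finset.sum_const]
        refine Finset.sum_le_sum fun c _ => ?_
        rw [← hc c]
        exact Finset.sum_le_sum_of_subset (subset_univ _)
      have h3 : (k + 1) * S.card ≤ (k + 1) * N.card := h1 ▸ h2
      exact Nat.le_of_mul_le_mul_left h3 (Nat.succ_pos k)
    obtain ⟨g, hg, hg'⟩ := (Finset.all_card_le_biUnion_card_iff_exists_injective _).1 hall
    have hgb : Function.Bijective g := (Fintype.bijective_iff_injective_and_card g).2 ⟨hg, hcard⟩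
    have hpos : ∀ r, 0 < W r (g r) := fun r => (mem_filter.1 (hg' r)).2
    let W' : R → C → ℕ := fun r c => if g r = c then W r c - 1 else W r c
    have hWW : ∀ r c, W r c = W' r c + (if g r = c then 1 else 0) := by
      intro r c
      by_cases h : g r = c
      · have h0 := hpos r
        rw [h] at h0
        simp only [W', if_pos h]
        omega
      · simp only [W', if_neg h, add_zero]
    obtain ⟨f, hf1, hf2, hf3⟩ := ih W' (fun r => by
      have h1 := hr r
      simp_rw [hWW r] at h1
      rw [Finset.sum_add_distrib, Finset.sum_ite_eq, if_pos (mem_univ _)] at h1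
      exact Nat.succ_injective h1) (fun c => by
      have h1 := hc c
      simp_rw [fun r => hWW r c] at h1
      rw [Finset.sum_add_distrib] at h1
      have h2 : ∑ r, (if g r = c then 1 else 0) = 1 := by
        obtain ⟨r0, hr0⟩ := hgb.2 c
        rw [Finset.sum_eq_single r0]
        · rw [if_pos hr0]
        · intro r _ hne
          rw [if_neg]
          intro h
          exact hne (hg (h.trans hr0.symm))
        · intro h
          exact absurd (mem_univ _) h
      rw [h2] at h1
      exact Nat.succ_injective h1)
    refine ⟨Fin.cons g f, fun i => ?_, fun i r => ?_, fun r c h => ?_⟩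
    · refine Fin.cases ?_ (fun i => ?_) i
      · exact hgb
      · exact hf1 i
    · refine Fin.cases ?_ (fun i => ?_) i
      · exact hpos r
      · have h1 := hf2 i r
        have h2 := hWW r (f i r)
        change 0 < W r (f i r)
        omega
    · by_cases hgc : g r = c
      · exact ⟨0, hgc⟩
      · have h1 := hWW r c
        rw [if_neg hgc] at h1
        obtain ⟨i, hi⟩ := hf3 r c (by omega)
        exact ⟨i.succ, hi⟩

/-- Integral transport with forbidden positions. -/
theorem transport {R C : Type} [Fintype R] [Fintype C] [DecidableEq R] [DecidableEq C]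
    (ρ : R → ℕ) (κ : C → ℕ) (hs : ∑ r, ρ r = ∑ c, κ c) (Al : R → C → Prop)
    [∀ r c, Decidable (Al r c)]
    (hall : ∀ T : Finset R, ∑ r ∈ T, ρ r ≤ ∑ c ∈ univ.filter (fun c => ∃ r ∈ T, Al r c), κ c) :
    ∃ W : R → C → ℕ, (∀ r, ∑ c, W r c = ρ r) ∧ (∀ c, ∑ r, W r c = κ c) ∧
      ∀ r c, 0 < W r c → Al r c := by
  classical
  have hH : ∀ S : Finset (Σ r : R, Fin (ρ r)), S.card ≤
      (S.biUnion fun x => univ.filter fun y : (Σ c : C, Fin (κ c)) => Al x.1 y.1).card := by
    intro S
    set T := S.image Sigma.fst with hT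
    have h1 : S.card ≤ ∑ r ∈ T, ρ r := by
      have h2 : S ⊆ T.sigma fun r => (univ : Finset (Fin (ρ r))) := by
        intro x hx
        exact mem_sigma.2 ⟨mem_image_of_mem _ hx, mem_univ _⟩
      have h3 := card_le_card h2
      rw [card_sigma] at h3
      simpa using h3
    have h2 : ∑ c ∈ univ.filter (fun c => ∃ r ∈ T, Al r c), κ c ≤
        (S.biUnion fun x => univ.filter fun y : (Σ c : C, Fin (κ c)) => Al x.1 y.1).card := by
      have h3 : ((univ.filter (fun c => ∃ r ∈ T, Al r c)).sigma
          fun c => (univ : Finset (Fin (κ c)))) ⊆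
          S.biUnion fun x => univ.filter fun y : (Σ c : C, Fin (κ c)) => Al x.1 y.1 := by
        intro y hy
        obtain ⟨h4, -⟩ := mem_sigma.1 hy
        obtain ⟨-, r, hr, h5⟩ := mem_filter.1 h4
        obtain ⟨x, hx, rfl⟩ := mem_image.1 hr
        exact mem_biUnion.2 ⟨x, hx, mem_filter.2 ⟨mem_univ _, h5⟩⟩
      have h4 := card_le_card h3
      rw [card_sigma] at h4
      simpa using h4
    exact h1.trans ((hall T).trans h2)
  obtain ⟨f, hf, hf'⟩ := (Finset.all_card_le_biUnion_card_iff_exists_injective _).1 hH
  have hcard : Fintype.card (Σ r : R, Fin (ρ r)) = Fintype.card (Σ c : C, Fin (κ c)) := by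
    rw [Fintype.card_sigma, Fintype.card_sigma]
    simpa using hs
  have hfb : Function.Bijective f := (Fintype.bijective_iff_injective_and_card f).2 ⟨hf, hcard⟩
  refine ⟨fun r c => (univ.filter fun i : Fin (ρ r) => (f ⟨r, i⟩).1 = c).card, fun r => ?_,
    fun c => ?_, fun r c h => ?_⟩
  · have h1 := Finset.card_eq_sum_card_fiberwise (s := (univ : Finset (Fin (ρ r))))
      (t := (univ : Finset C)) (f := fun i => (f ⟨r, i⟩).1) (fun _ _ => mem_univ _)
    rw [card_univ, Fintype.card_fin] at h1
    exact h1.symm
  · have h1 : ∀ r, (univ.filter fun i : Fin (ρ r) => (f ⟨r, i⟩).1 = c).card =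
        ((univ.filter fun x : (Σ r : R, Fin (ρ r)) => (f x).1 = c).filter fun x => x.1 = r).card := by
      intro r
      rw [← Finset.card_map (⟨fun i => (⟨r, i⟩ : Σ r : R, Fin (ρ r)), fun i j h => by
        simpa using h⟩ : Fin (ρ r) ↪ (Σ r : R, Fin (ρ r)))]
      congr 1
      ext ⟨r', i⟩
      simp only [mem_map, mem_filter, mem_univ, true_and, Function.Embedding.coeFn_mk]
      constructor
      · rintro ⟨j, hj, h2⟩
        cases h2
        exact ⟨hj, rfl⟩
      · rintro ⟨h2, h3⟩
        subst h3
        exact ⟨i, h2, rfl⟩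
    have h2 : ∑ r, (univ.filter fun i : Fin (ρ r) => (f ⟨r, i⟩).1 = c).card =
        (univ.filter fun x : (Σ r : R, Fin (ρ r)) => (f x).1 = c).card := by
      rw [Finset.card_eq_sum_card_fiberwise (t := (univ : Finset R)) (f := fun x => x.1)
        (fun _ _ => mem_univ _)]
      exact Finset.sum_congr rfl fun r _ => h1 r
    rw [h2]
    have h3 : (univ.filter fun x : (Σ r : R, Fin (ρ r)) => (f x).1 = c).card =
        (univ.filter fun y : (Σ c : C, Fin (κ c)) => y.1 = c).card := by
      refine Finset.card_bij (fun x _ => f x) (fun x hx => ?_) (fun x _ y _ h => hf h)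
        fun y hy => ?_
      · exact mem_filter.2 ⟨mem_univ _, (mem_filter.1 hx).2⟩
      · obtain ⟨x, rfl⟩ := hfb.2 y
        exact ⟨x, mem_filter.2 ⟨mem_univ _, (mem_filter.1 hy).2⟩, rfl⟩
    rw [h3]
    have h4 : (univ.filter fun y : (Σ c : C, Fin (κ c)) => y.1 = c) =
        (univ : Finset (Fin (κ c))).map (⟨fun i => (⟨c, i⟩ : Σ c : C, Fin (κ c)), fun i j h => by
        simpa using h⟩ : Fin (κ c) ↪ (Σ c : C, Fin (κ c))) := by
      ext ⟨c', i⟩
      simp only [mem_map, mem_filter, mem_univ, true_and, Function.Embedding.coeFn_mk]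
      constructor
      · intro h5
        subst h5
        exact ⟨i, rfl⟩
      · rintro ⟨j, h5⟩
        cases h5
        rfl
    rw [h4, card_map, card_univ, Fintype.card_fin]
  · obtain ⟨i, hi⟩ := card_pos.1 h
    have h1 := (mem_filter.1 hi).2
    have h2 := (mem_filter.1 (hf' ⟨r, i⟩)).2
    rwa [h1] at h2

end Pool.Agent.Q176.EX
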