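import Pool.Agent.Q176.EX.Core

/-!
# Covering a bipartite relation by matchings of size `m`
-/

set_option autoImplicit false

namespace Pool.Agent.Q176.EX

open Finset

section

variable {A B : Type} [Fintype A] [Fintype B] [DecidableEq A] [DecidableEq B]
  (R : A → B → Prop) [∀ a b, Decidable (R a b)]

/-- The pairs. -/
def prs : Finset (A × B) := univ.filter fun p => R p.1 p.2

/-- Degrees. -/
def dA (a : A) : ℕ := (univ.filter fun b => R a b).card

/-- Degrees. -/
def dB (b : B) : ℕ := (univ.filter fun a => R a b).card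

/-- Neighbours of a set. -/
def nbr (S : Finset A) : Finset B := univ.filter fun b => ∃ a ∈ S, R a b

/-- The pairs inside the cover. -/
def ins (S : Finset A) : Finset (A × B) := (prs R).filter fun p => p.1 ∉ S ∧ p.2 ∈ nbr R S

theorem sum_dA (S : Finset A) : ∑ a ∈ S, dA R a = ((prs R).filter fun p => p.1 ∈ S).card := by
  rw [Finset.card_eq_sum_card_fiberwise (s := (prs R).filter fun p => p.1 ∈ S) (t := S)
    (f := Prod.fst) (fun p hp => (mem_filter.1 hp).2)]
  refine sum_congr rfl fun a ha => ?_
  refine card_bij (fun b _ => (a, b)) (fun b hb => ?_) (fun b _ b' _ h => ?_) fun p hp => ?_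
  · exact mem_filter.2 ⟨mem_filter.2 ⟨mem_filter.2 ⟨mem_univ _, (mem_filter.1 hb).2⟩, ha⟩, rfl⟩
  · exact (Prod.mk.inj h).2
  · obtain ⟨h1, h2⟩ := mem_filter.1 hp
    obtain ⟨h3, h4⟩ := mem_filter.1 h1
    have h5 := (mem_filter.1 h3).2
    subst h2
    exact ⟨p.2, mem_filter.2 ⟨mem_univ _, h5⟩, rfl⟩

theorem sum_dB (S : Finset B) : ∑ b ∈ S, dB R b = ((prs R).filter fun p => p.2 ∈ S).card := by
  rw [Finset.card_eq_sum_card_fiberwise (s := (prs R).filter fun p => p.2 ∈ S) (t := S)
    (f := Prod.snd) (fun p hp => (mem_filter.1 hp).2)]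
  refine sum_congr rfl fun b hb => ?_
  refine card_bij (fun a _ => (a, b)) (fun a ha => ?_) (fun b _ b' _ h => ?_) fun p hp => ?_
  · exact mem_filter.2 ⟨mem_filter.2 ⟨mem_filter.2 ⟨mem_univ _, (mem_filter.1 ha).2⟩, hb⟩, rfl⟩
  · exact (Prod.mk.inj h).1
  · obtain ⟨h1, h2⟩ := mem_filter.1 hp
    obtain ⟨h3, h4⟩ := mem_filter.1 h1
    have h5 := (mem_filter.1 h3).2
    subst h2
    exact ⟨p.1, mem_filter.2 ⟨mem_univ _, h5⟩, rfl⟩

theorem sum_dA_univ : ∑ a, dA R a = (prs R).card := by
  rw [sum_dA]
  congr 1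
  exact filter_true_of_mem fun p _ => mem_univ _

theorem sum_dB_univ : ∑ b, dB R b = (prs R).card := by
  rw [sum_dB]
  congr 1
  exact filter_true_of_mem fun p _ => mem_univ _

/-- The counting identity for the vertex cover of a set. -/
theorem cover_count (S : Finset A) :
    ∑ b ∈ nbr R S, dB R b = ∑ a ∈ S, dA R a + (ins R S).card := by
  rw [sum_dA, sum_dB]
  have h1 : ((prs R).filter fun p => p.2 ∈ nbr R S) =
      ((prs R).filter fun p => p.1 ∈ S) ∪ ins R S := by
    ext p
    simp only [mem_filter, mem_union, ins]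
    constructor
    · rintro ⟨h, h2⟩
      by_cases h3 : p.1 ∈ S
      · exact Or.inl ⟨h, h3⟩
      · exact Or.inr ⟨h, h3, h2⟩
    · rintro (⟨h, h2⟩ | ⟨h, -, h2⟩)
      · exact ⟨h, mem_filter.2 ⟨mem_univ _, p.1, h2, (mem_filter.1 h).2⟩⟩
      · exact ⟨h, h2⟩
  rw [h1, card_union_of_disjoint]
  rw [disjoint_left]
  intro p hp hp'
  exact (mem_filter.1 hp').2.1 (mem_filter.1 hp).2

/-- The covering theorem in matrix form. -/
theorem core (m k : ℕ) (hmA : m ≤ Fintype.card A) (hmB : m ≤ Fintype.card B)
    (hE : (prs R).card ≤ k * m) (hA : ∀ a, dA R a ≤ k) (hB : ∀ b, dB R b ≤ k)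
    (hC : ∀ S : Finset A, (ins R S).card + k * m ≤
      k * (Fintype.card A - S.card) + k * (nbr R S).card) :
    ∃ F : Fin k → Finset (A × B), (∀ i, (F i).card = m ∧ F i ⊆ prs R ∧
      (∀ p ∈ F i, ∀ q ∈ F i, p.1 = q.1 → p = q) ∧ ∀ p ∈ F i, ∀ q ∈ F i, p.2 = q.2 → p = q) ∧
      ∀ p ∈ prs R, ∃ i, p ∈ F i := by
  classical
  set p := Fintype.card A with hp
  set q := Fintype.card B with hq
  let Rw := A ⊕ Fin (q - m)
  let Cl := B ⊕ Fin (p - m)
  let ρ : Rw → ℕ := Sum.elim (fun a => k - dA R a) fun _ => k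
  let κ : Cl → ℕ := Sum.elim (fun b => k - dB R b) fun _ => k
  let Al : Rw → Cl → Prop := fun r c =>
    Sum.elim (fun a => Sum.elim (fun b => R a b) (fun _ => True) c)
      (fun _ => Sum.elim (fun _ => True) (fun _ => False) c) r
  have hsA : ∀ S : Finset A, ∑ a ∈ S, (k - dA R a) + ∑ a ∈ S, dA R a = k * S.card := by
    intro S
    rw [← sum_add_distrib, mul_comm, ← smul_eq_mul, ← sum_const]
    exact sum_congr rfl fun a _ => Nat.sub_add_cancel (hA a)
  have hsB : ∀ S : Finset B, ∑ b ∈ S, (k - dB R b) + ∑ b ∈ S, dB R b = k * S.card := by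
    intro S
    rw [← sum_add_distrib, mul_comm, ← smul_eq_mul, ← sum_const]
    exact sum_congr rfl fun a _ => Nat.sub_add_cancel (hB a)
  have hA1 := hsA univ
  have hB1 := hsB univ
  rw [sum_dA_univ, card_univ, ← hp] at hA1
  rw [sum_dB_univ, card_univ, ← hq] at hB1
  have hkp : k * (p - m) + k * m = k * p := by
    rw [← mul_add, Nat.sub_add_cancel hmA]
  have hkq : k * (q - m) + k * m = k * q := by
    rw [← mul_add, Nat.sub_add_cancel hmB]
  have hρ : ∑ r, ρ r = ∑ a, (k - dA R a) + k * (q - m) := by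
    rw [Fintype.sum_sum_type]
    congr 1
    simp [ρ, mul_comm]
  have hκ : ∑ c, κ c = ∑ b, (k - dB R b) + k * (p - m) := by
    rw [Fintype.sum_sum_type]
    congr 1
    simp [κ, mul_comm]
  obtain ⟨W, hW1, hW2, hW3⟩ := transport ρ κ (by omega) Al (fun T => by
    set N := univ.filter fun c => ∃ r ∈ T, Al r c with hN
    have hT : T = T.toLeft.disjSum T.toRight := toLeft_disjSum_toRight.symm
    have hT1 : ∑ r ∈ T, ρ r = ∑ a ∈ T.toLeft, (k - dA R a) + k * T.toRight.card := by
      conv_lhs => rw [hT]
      rw [sum_disjSum]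
      congr 1
      simp [ρ, mul_comm]
    have hN' : N = N.toLeft.disjSum N.toRight := toLeft_disjSum_toRight.symm
    have hN1 : ∑ c ∈ N, κ c = ∑ b ∈ N.toLeft, (k - dB R b) + k * N.toRight.card := by
      conv_lhs => rw [hN']
      rw [sum_disjSum]
      congr 1
      simp [κ, mul_comm]
    have hTr : T.toRight.card ≤ q - m := by
      have := card_le_univ T.toRight
      rwa [Fintype.card_fin] at this
    rw [hT1, hN1]
    rcases T.toRight.eq_empty_or_nonempty with hr | ⟨j, hj⟩
    · rcases T.toLeft.eq_empty_or_nonempty with hl | ⟨a0, ha0⟩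
      · rw [hr, hl]
        simp
      · have h1 : N.toRight = univ := by
          ext j
          simp only [mem_toRight, mem_univ, iff_true]
          exact mem_filter.2 ⟨mem_univ _, Sum.inl a0, mem_toLeft.1 ha0, trivial⟩
        have h2 : nbr R T.toLeft ⊆ N.toLeft := by
          intro b hb
          obtain ⟨a, ha, hab⟩ := (mem_filter.1 hb).2
          exact mem_toLeft.2 (mem_filter.2 ⟨mem_univ _, Sum.inl a, mem_toLeft.1 ha, hab⟩)
        have h3 : ∑ b ∈ nbr R T.toLeft, (k - dB R b) ≤ ∑ b ∈ N.toLeft, (k - dB R b) :=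
          sum_le_sum_of_subset h2
        have h4 := hC T.toLeft
        have h5 := cover_count R T.toLeft
        have h6 := hsA T.toLeft
        have h7 := hsB (nbr R T.toLeft)
        have h8 : T.toLeft.card ≤ p := card_le_univ _
        have h9 : k * (p - T.toLeft.card) + k * T.toLeft.card = k * p := by
          rw [← mul_add, Nat.sub_add_cancel h8]
        rw [h1, hr, card_empty, card_univ, Fintype.card_fin]
        omega
    · have h1 : N.toLeft = univ := by
        ext b
        simp only [mem_toLeft, mem_univ, iff_true]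
        exact mem_filter.2 ⟨mem_univ _, Sum.inr j, mem_toRight.1 hj, trivial⟩
      rcases T.toLeft.eq_empty_or_nonempty with hl | ⟨a0, ha0⟩
      · rw [hl, sum_empty, zero_add, h1]
        have h2 : k * T.toRight.card ≤ k * (q - m) := Nat.mul_le_mul_left k hTr
        omega
      · have h2 : N.toRight = univ := by
          ext j
          simp only [mem_toRight, mem_univ, iff_true]
          exact mem_filter.2 ⟨mem_univ _, Sum.inl a0, mem_toLeft.1 ha0, trivial⟩
        rw [h1, h2, card_univ, Fintype.card_fin]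
        have h3 : k * T.toRight.card ≤ k * (q - m) := Nat.mul_le_mul_left k hTr
        have h4 : ∑ a ∈ T.toLeft, (k - dA R a) ≤ ∑ a, (k - dA R a) :=
          sum_le_sum_of_subset (subset_univ _)
        omega)
  -- add the relation
  let X : Rw → Cl → ℕ := fun r c =>
    Sum.elim (fun a => Sum.elim (fun b => if R a b then 1 else 0) (fun _ => 0) c)
      (fun _ => 0) r
  have hX1 : ∀ r, ∑ c, (W r c + X r c) = k := by
    intro r
    rw [sum_add_distrib, hW1]
    rcases r with a | j
    · have h1 : ∑ c, X (Sum.inl a) c = dA R a := by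
        rw [Fintype.sum_sum_type]
        simp [X, dA]
      rw [h1]
      exact Nat.sub_add_cancel (hA a)
    · have h1 : ∑ c, X (Sum.inr j) c = 0 := by
        simp [X]
      rw [h1]
      rfl
  have hX2 : ∀ c, ∑ r, (W r c + X r c) = k := by
    intro c
    rw [sum_add_distrib, hW2]
    rcases c with b | j
    · have h1 : ∑ r, X r (Sum.inl b) = dB R b := by
        rw [Fintype.sum_sum_type]
        simp [X, dB]
      rw [h1]
      exact Nat.sub_add_cancel (hB b)
    · have h1 : ∑ r, X r (Sum.inr j) = 0 := by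
        rw [Fintype.sum_sum_type]
        simp [X]
      rw [h1]
      rfl
  have hcard : Fintype.card Rw = Fintype.card Cl := by
    rw [Fintype.card_sum, Fintype.card_sum, Fintype.card_fin, Fintype.card_fin, ← hp, ← hq]
    omega
  obtain ⟨f, hf1, hf2, hf3⟩ := decomp hcard k (fun r c => W r c + X r c) hX1 hX2
  have hfR : ∀ i a b, f i (Sum.inl a) = Sum.inl b → R a b := by
    intro i a b h
    by_contra hcon
    have h1 := hf2 i (Sum.inl a)
    rw [h] at h1
    have h2 : X (Sum.inl a) (Sum.inl b) = 0 := by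
      simp [X, hcon]
    rw [h2, add_zero] at h1
    exact hcon (hW3 _ _ h1)
  have hfN : ∀ i j j', f i (Sum.inr j) ≠ Sum.inr j' := by
    intro i j j' h
    have h1 := hf2 i (Sum.inr j)
    rw [h] at h1
    have h2 : X (Sum.inr j) (Sum.inr j') = 0 := rfl
    rw [h2, add_zero] at h1
    exact hW3 _ _ h1
  refine ⟨fun i => univ.filter fun x : A × B => f i (Sum.inl x.1) = Sum.inl x.2, fun i =>
    ⟨?_, fun x hx => mem_filter.2 ⟨mem_univ _, hfR i _ _ (mem_filter.1 hx).2⟩,
      fun x hx y hy h => ?_, fun x hx y hy h => ?_⟩, fun x hx => ?_⟩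
  · -- the number of pairs
    have h1 : (univ.filter fun x : A × B => f i (Sum.inl x.1) = Sum.inl x.2).card =
        (univ.filter fun a : A => (f i (Sum.inl a)).isLeft).card := by
      refine card_bij (fun x _ => x.1) (fun x hx => ?_) (fun x hx y hy h => ?_) fun a ha => ?_
      · rw [mem_filter]
        refine ⟨mem_univ _, ?_⟩
        rw [(mem_filter.1 hx).2]
        rfl
      · have h2 := (mem_filter.1 hx).2
        have h3 := (mem_filter.1 hy).2
        rw [h, h3] at h2
        exact Prod.ext h (Sum.inl_injective h2).symm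
      · have h2 := (mem_filter.1 ha).2
        obtain ⟨b, hb⟩ := Sum.isLeft_iff.1 h2
        exact ⟨(a, b), mem_filter.2 ⟨mem_univ _, hb⟩, rfl⟩
    have h2 : (univ.filter fun a : A => ¬ (f i (Sum.inl a)).isLeft = true).card = p - m := by
      have h3 : (univ.filter fun a : A => ¬ (f i (Sum.inl a)).isLeft = true).card =
          (univ : Finset (Fin (p - m))).card := by
        symm
        have hch : ∀ j : Fin (p - m), ∃ a : A, f i (Sum.inl a) = Sum.inr j := by
          intro j
          obtain ⟨r, hr⟩ := (hf1 i).2 (Sum.inr j)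
          rcases r with a | j'
          · exact ⟨a, hr⟩
          · exact absurd hr (hfN _ _ _)
        choose g hg using hch
        refine card_bij (fun j _ => g j) (fun j _ => ?_) (fun j _ j' _ h => ?_) fun a ha => ?_
        · rw [mem_filter]
          refine ⟨mem_univ _, ?_⟩
          rw [hg]
          simp
        · have h4 := hg j
          rw [h, hg j'] at h4
          exact (Sum.inr_injective h4).symm
        · have h4 := (mem_filter.1 ha).2
          rcases h5 : f i (Sum.inl a) with b | j
          · rw [h5] at h4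
            exact absurd rfl h4
          · refine ⟨j, mem_univ _, ?_⟩
            have h6 := hg j
            rw [← h5] at h6
            exact Sum.inl_injective ((hf1 i).1 h6)
      rw [h3, card_univ, Fintype.card_fin]
    have h3 := card_filter_add_card_filter_not (s := (univ : Finset A))
      (fun a : A => (f i (Sum.inl a)).isLeft = true)
    rw [card_univ, ← hp] at h3
    change (univ.filter fun x : A × B => f i (Sum.inl x.1) = Sum.inl x.2).card = m
    rw [h1]
    omega
  · have h2 := (mem_filter.1 hx).2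
    have h3 := (mem_filter.1 hy).2
    rw [h, h3] at h2
    exact Prod.ext h (Sum.inl_injective h2).symm
  · have h2 := (mem_filter.1 hx).2
    have h3 := (mem_filter.1 hy).2
    rw [h, ← h3] at h2
    exact Prod.ext (Sum.inl_injective ((hf1 i).1 h2)) h
  · have h1 : 0 < W (Sum.inl x.1) (Sum.inl x.2) + X (Sum.inl x.1) (Sum.inl x.2) := by
      have h2 : X (Sum.inl x.1) (Sum.inl x.2) = 1 := by
        have h3 := (mem_filter.1 hx).2
        simp [X, h3]
      omega
    obtain ⟨i, hi⟩ := hf3 _ _ h1
    exact ⟨i, mem_filter.2 ⟨mem_univ _, hi⟩⟩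

end

end Pool.Agent.Q176.EX
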