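import Pool.Agent.Q176.EX.Core2

/-!
# The excessive `[m]`-index of bipartite graphs
-/

set_option autoImplicit false

namespace Pool.Agent.Q176.EX

open Finset

/-- `M` is an `[m]`-matching of the graph with the edge set `S`: it consists of exactly `m` edges
of `S`, and no two distinct edges in `M` have a common vertex. -/
def IsMm {V : Type} (S : Finset (Sym2 V)) (m : ℕ) (M : Finset (Sym2 V)) : Prop :=
  M ⊆ S ∧ M.card = m ∧ ∀ e ∈ M, ∀ f ∈ M, ∀ v, v ∈ e → v ∈ f → e = f

section

variable {V : Type} [Finite V] (G : SimpleGraph V)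

/-- The edges of `G`. -/
noncomputable def EE : Finset (Sym2 V) := (Set.toFinite G.edgeSet).toFinset

/-- `G` is `[m]`-coverable: each edge is in an `[m]`-matching of `G`. -/
def Coverable (m : ℕ) : Prop := ∀ e ∈ EE G, ∃ M, IsMm (EE G) m M ∧ e ∈ M

/-- The excessive `[m]`-index: the least number of `[m]`-matchings that cover all edges. -/
noncomputable def exIdx (m : ℕ) : ℕ :=
  sInf {k : ℕ | ∃ F : Fin k → Finset (Sym2 V), (∀ i, IsMm (EE G) m (F i)) ∧
    ∀ e ∈ EE G, ∃ i, e ∈ F i}

/-- The chromatic index: the least number of colours in a proper colouring of the edges, that is,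
of the vertices of the line graph. -/
noncomputable def chromaticIndex : ℕ := sInf {k : ℕ | G.lineGraph.Colorable k}

/-- `S` (given by its edges) is a `t`-splitting set of `G`. -/
def IsSplitting (m t : ℕ) (S : Finset (Sym2 V)) : Prop :=
  S ⊆ EE G ∧ (∃ M, IsMm S (t + 1) M) ∧
    ∀ M, IsMm S (t + 1) M → ∀ N, IsMm (EE G) m N → ¬ M ⊆ N

/-- The largest number of edges of a `t`-splitting set, `0` if there is none. -/
noncomputable def splitNum (m t : ℕ) : ℕ := sSup {n | ∃ S, IsSplitting G m t S ∧ S.card = n}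

/-- The maximum of the chromatic index, `⌈|E| / m⌉`, and `⌈s^t / t⌉` for `1 ≤ t ≤ m - 1`. -/
noncomputable def bound (m : ℕ) : ℕ :=
  max (chromaticIndex G) (max ⌈((EE G).card : ℚ) / m⌉₊
    ((Finset.Icc 1 (m - 1)).sup fun t => ⌈(splitNum G m t : ℚ) / t⌉₊))

variable {G}

theorem mem_EE {e : Sym2 V} : e ∈ EE G ↔ e ∈ G.edgeSet := Set.Finite.mem_toFinset _

theorem ceil_le {a b k : ℕ} (hb : 0 < b) : ⌈(a : ℚ) / b⌉₊ ≤ k ↔ a ≤ k * b := by
  rw [Nat.ceil_le, div_le_iff₀ (by exact_mod_cast hb)]
  exact_mod_cast Iff.rfl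

theorem card_le_splitNum {m t : ℕ} {S : Finset (Sym2 V)} (h : IsSplitting G m t S) :
    S.card ≤ splitNum G m t := by
  refine le_csSup ⟨(EE G).card, ?_⟩ ⟨S, h, rfl⟩
  rintro n ⟨T, hT, rfl⟩
  exact card_le_card hT.1

theorem splitNum_le {m t K : ℕ} (h : ∀ S, IsSplitting G m t S → S.card ≤ K) :
    splitNum G m t ≤ K := by
  unfold splitNum
  rcases Set.eq_empty_or_nonempty {n | ∃ S, IsSplitting G m t S ∧ S.card = n} with h0 | h0
  · rw [h0]
    simp
  · refine csSup_le h0 ?_
    rintro n ⟨S, hS, rfl⟩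
    exact h S hS

/-- A subset of a matching of a given size. -/
theorem exists_sub {S M : Finset (Sym2 V)} {m t : ℕ} (h : IsMm S m M) (ht : t ≤ m) :
    ∃ M', IsMm S t M' ∧ M' ⊆ M := by
  obtain ⟨h1, h2, h3⟩ := h
  obtain ⟨M', h4, h5⟩ := exists_subset_card_eq (h2 ▸ ht)
  exact ⟨M', ⟨h4.trans h1, h5, fun e he f hf => h3 e (h4 he) f (h4 hf)⟩, h4⟩

/-- The lower bound. -/
theorem bound_le {m k : ℕ} (hm : 1 ≤ m) (F : Fin k → Finset (Sym2 V))
    (hF : ∀ i, IsMm (EE G) m (F i)) (hcov : ∀ e ∈ EE G, ∃ i, e ∈ F i) : bound G m ≤ k := by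
  classical
  refine max_le ?_ (max_le ?_ (Finset.sup_le fun t ht => ?_))
  · refine Nat.sInf_le ?_
    have h1 : ∀ e : G.edgeSet, ∃ i, e.1 ∈ F i := fun e => hcov e.1 (mem_EE.2 e.2)
    choose c hc using h1
    refine ⟨SimpleGraph.Coloring.mk c fun {e f} hef h => ?_⟩
    rw [SimpleGraph.lineGraph_adj_iff_exists] at hef
    obtain ⟨hne, v, hv, hv'⟩ := hef
    refine hne (Subtype.ext ((hF (c e)).2.2 _ (hc e) _ ?_ v hv hv'))
    rw [h]
    exact hc f
  · rw [ceil_le hm]
    have h1 : EE G ⊆ univ.biUnion F := fun e he => by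
      obtain ⟨i, hi⟩ := hcov e he
      exact mem_biUnion.2 ⟨i, mem_univ _, hi⟩
    refine (card_le_card h1).trans (card_biUnion_le.trans ?_)
    rw [Finset.sum_congr rfl fun i _ => (hF i).2.1]
    simp
  · obtain ⟨ht1, ht2⟩ := mem_Icc.1 ht
    rw [ceil_le ht1]
    refine splitNum_le fun S hS => ?_
    obtain ⟨hS1, -, hS3⟩ := hS
    have h1 : S ⊆ univ.biUnion fun i => F i ∩ S := fun e he => by
      obtain ⟨i, hi⟩ := hcov e (hS1 he)
      exact mem_biUnion.2 ⟨i, mem_univ _, mem_inter.2 ⟨hi, he⟩⟩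
    refine (card_le_card h1).trans (card_biUnion_le.trans ?_)
    have h2 : ∀ i, (F i ∩ S).card ≤ t := by
      intro i
      by_contra hcon
      push Not at hcon
      have h3 : IsMm S (F i ∩ S).card (F i ∩ S) := ⟨inter_subset_right, rfl,
        fun e he f hf => (hF i).2.2 e (mem_inter.1 he).1 f (mem_inter.1 hf).1⟩
      obtain ⟨M, hM, hM'⟩ := exists_sub h3 (Nat.succ_le_of_lt hcon)
      exact hS3 M hM (F i) (hF i) (hM'.trans inter_subset_left)
    refine (Finset.sum_le_sum fun i _ => h2 i).trans ?_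
    simp

/-- A set of edges whose matchings have at most `t` edges has at most `k * t` edges if the
chromatic index is at most `k`. -/
theorem card_le_of_matchings {k t : ℕ} (hk : chromaticIndex G ≤ k) {T : Finset (Sym2 V)}
    (hT : T ⊆ EE G) (h : ∀ s M, IsMm T s M → s ≤ t) : T.card ≤ k * t := by
  classical
  have hne : ∃ k, G.lineGraph.Colorable k := by
    haveI : Fintype G.edgeSet := Fintype.ofFinite _
    exact ⟨_, SimpleGraph.colorable_of_fintype _⟩
  have h0 : G.lineGraph.Colorable (chromaticIndex G) := Nat.sInf_mem hne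
  obtain ⟨c⟩ := h0.mono hk
  let cc : Sym2 V → Option (Fin k) := fun e => if he : e ∈ G.edgeSet then some (c ⟨e, he⟩) else none
  have hcc : ∀ e (he : e ∈ G.edgeSet), cc e = some (c ⟨e, he⟩) := fun e he => dif_pos he
  have h1 : T ⊆ univ.biUnion fun i : Fin k => T.filter fun e => cc e = some i := by
    intro e he
    have h2 := mem_EE.1 (hT he)
    exact mem_biUnion.2 ⟨c ⟨e, h2⟩, mem_univ _, mem_filter.2 ⟨he, hcc e h2⟩⟩
  refine (card_le_card h1).trans (card_biUnion_le.trans ?_)
  have h2 : ∀ i : Fin k, (T.filter fun e => cc e = some i).card ≤ t := by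
    intro i
    refine h _ _ ⟨filter_subset _ _, rfl, fun e he f hf v hv hv' => ?_⟩
    obtain ⟨he1, he2⟩ := mem_filter.1 he
    obtain ⟨hf1, hf2⟩ := mem_filter.1 hf
    have he3 := mem_EE.1 (hT he1)
    have hf3 := mem_EE.1 (hT hf1)
    rw [hcc e he3] at he2
    rw [hcc f hf3] at hf2
    by_contra hne
    have h3 : G.lineGraph.Adj ⟨e, he3⟩ ⟨f, hf3⟩ := by
      rw [SimpleGraph.lineGraph_adj_iff_exists]
      exact ⟨fun h4 => hne (congrArg Subtype.val h4), v, hv, hv'⟩
    refine c.valid h3 ?_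
    exact Option.some_injective _ (he2.trans hf2.symm)
  refine (Finset.sum_le_sum fun i _ => h2 i).trans ?_
  simp

end

/-! ### Bipartite graphs -/

section

variable {V : Type} [Fintype V] [DecidableEq V] {G : SimpleGraph V} (c : G.Coloring (Fin 2))

/-- One side. -/
abbrev SA := {v : V // c v = 0}

/-- The other side. -/
abbrev SB := {v : V // c v = 1}

/-- The adjacency relation between the sides. -/
def RG (a : SA c) (b : SB c) : Prop := G.Adj a.1 b.1

noncomputable instance (a : SA c) (b : SB c) : Decidable (RG c a b) := Classical.dec _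

/-- The edge of a pair. -/
def ph : SA c × SB c ↪ Sym2 V where
  toFun p := s(p.1.1, p.2.1)
  inj' := by
    rintro ⟨⟨a, ha⟩, ⟨b, hb⟩⟩ ⟨⟨a', ha'⟩, ⟨b', hb'⟩⟩ h
    have h1 : s(a, b) = s(a', b') := h
    rw [Sym2.eq_iff] at h1
    rcases h1 with ⟨rfl, rfl⟩ | ⟨rfl, rfl⟩
    · rfl
    · rw [ha] at hb'
      exact absurd hb' (by decide)

theorem map_prs : (prs (RG c)).map (ph c) = EE G := by
  ext e
  rw [mem_map, mem_EE]
  constructor
  · rintro ⟨p, hp, rfl⟩
    exact (mem_filter.1 hp).2
  · intro he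
    induction e using Sym2.ind with
    | _ x y =>
      have hxy : G.Adj x y := he
      have hne := c.valid hxy
      rcases Fin.exists_fin_two.1 ⟨c x, rfl⟩ with h | h
      · have h2 : c y = 1 := by
          rw [h] at hne
          have := Fin.exists_fin_two.1 ⟨c y, rfl⟩
          rcases this with h3 | h3
          · exact absurd h3.symm hne
          · exact h3
        exact ⟨(⟨x, h⟩, ⟨y, h2⟩), mem_filter.2 ⟨mem_univ _, hxy⟩, rfl⟩
      · have h2 : c y = 0 := by
          rw [h] at hne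
          have := Fin.exists_fin_two.1 ⟨c y, rfl⟩
          rcases this with h3 | h3
          · exact h3
          · exact absurd h3.symm hne
        exact ⟨(⟨y, h2⟩, ⟨x, h⟩), mem_filter.2 ⟨mem_univ _, hxy.symm⟩, Sym2.eq_swap⟩

/-- Matchings of pairs. -/
def PM (M : Finset (SA c × SB c)) : Prop :=
  (∀ p ∈ M, ∀ q ∈ M, p.1 = q.1 → p = q) ∧ ∀ p ∈ M, ∀ q ∈ M, p.2 = q.2 → p = q

theorem pm_iff (M : Finset (SA c × SB c)) : PM c M ↔
    ∀ e ∈ M.map (ph c), ∀ f ∈ M.map (ph c), ∀ v, v ∈ e → v ∈ f → e = f := by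
  constructor
  · rintro ⟨h1, h2⟩ e he f hf v hv hv'
    obtain ⟨p, hp, rfl⟩ := mem_map.1 he
    obtain ⟨q, hq, rfl⟩ := mem_map.1 hf
    have h3 : v ∈ s(p.1.1, p.2.1) := hv
    have h4 : v ∈ s(q.1.1, q.2.1) := hv'
    rw [Sym2.mem_iff] at h3 h4
    rcases h3 with rfl | rfl <;> rcases h4 with h4 | h4
    · rw [h1 p hp q hq (Subtype.ext h4)]
    · have h5 := p.1.2
      rw [h4, q.2.2] at h5
      exact absurd h5 (by decide)
    · have h5 := p.2.2
      rw [h4, q.1.2] at h5
      exact absurd h5 (by decide)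
    · rw [h2 p hp q hq (Subtype.ext h4)]
  · intro h
    constructor
    · intro p hp q hq hpq
      refine (ph c).injective (h _ (mem_map_of_mem _ hp) _ (mem_map_of_mem _ hq) p.1.1
        (Sym2.mem_mk_left _ _) ?_)
      rw [hpq]
      exact Sym2.mem_mk_left _ _
    · intro p hp q hq hpq
      refine (ph c).injective (h _ (mem_map_of_mem _ hp) _ (mem_map_of_mem _ hq) p.2.1
        (Sym2.mem_mk_right _ _) ?_)
      rw [hpq]
      exact Sym2.mem_mk_right _ _

/-- The counting lemma for covers. -/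
theorem cover_le {M : Finset (SA c × SB c)} (hM : M ⊆ prs (RG c)) (hM' : PM c M)
    (S : Finset (SA c)) :
    M.card + (M ∩ ins (RG c) S).card ≤
      (Fintype.card (SA c) - S.card) + (nbr (RG c) S).card := by
  have h1 : (M.filter fun p => p.1 ∉ S).card ≤ Fintype.card (SA c) - S.card := by
    rw [← card_compl]
    refine card_le_card_of_injOn Prod.fst (fun p hp => ?_) fun p hp q hq h => ?_
    · exact mem_coe.2 (mem_compl.2 (mem_filter.1 (mem_coe.1 hp)).2)
    · exact hM'.1 p (mem_filter.1 (mem_coe.1 hp)).1 q (mem_filter.1 (mem_coe.1 hq)).1 h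
  have h2 : (M.filter fun p => p.2 ∈ nbr (RG c) S).card ≤ (nbr (RG c) S).card := by
    refine card_le_card_of_injOn Prod.snd (fun p hp => ?_) fun p hp q hq h => ?_
    · exact (mem_filter.1 (mem_coe.1 hp)).2
    · exact hM'.2 p (mem_filter.1 (mem_coe.1 hp)).1 q (mem_filter.1 (mem_coe.1 hq)).1 h
  have h3 : (M.filter fun p => p.1 ∉ S) ∪ (M.filter fun p => p.2 ∈ nbr (RG c) S) = M := by
    ext p
    rw [mem_union, mem_filter, mem_filter]
    constructor
    · rintro (h | h)
      · exact h.1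
      · exact h.1
    · intro h
      by_cases h4 : p.1 ∈ S
      · exact Or.inr ⟨h, mem_filter.2 ⟨mem_univ _, p.1, h4, (mem_filter.1 (hM h)).2⟩⟩
      · exact Or.inl ⟨h, h4⟩
  have h4 : (M.filter fun p => p.1 ∉ S) ∩ (M.filter fun p => p.2 ∈ nbr (RG c) S) =
      M ∩ ins (RG c) S := by
    ext p
    simp only [mem_inter, mem_filter, ins]
    constructor
    · rintro ⟨⟨h5, h6⟩, -, h7⟩
      exact ⟨h5, hM h5, h6, h7⟩
    · rintro ⟨h5, -, h6, h7⟩
      exact ⟨⟨h5, h6⟩, h5, h7⟩
  have h5 := card_union_add_card_inter (M.filter fun p => p.1 ∉ S)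
    (M.filter fun p => p.2 ∈ nbr (RG c) S)
  rw [h3, h4] at h5
  omega

include c in
/-- The upper bound. -/
theorem exists_cover {m k : ℕ} (hm : 1 ≤ m) (hcov : Coverable G m) (hk : bound G m ≤ k)
    (hne : (EE G).Nonempty) :
    ∃ F : Fin k → Finset (Sym2 V), (∀ i, IsMm (EE G) m (F i)) ∧ ∀ e ∈ EE G, ∃ i, e ∈ F i := by
  have hk1 : chromaticIndex G ≤ k := (le_max_left _ _).trans hk
  have hk2 : (EE G).card ≤ k * m :=
    (ceil_le hm).1 ((le_max_left _ _).trans ((le_max_right _ _).trans hk))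
  have hk3 : ∀ t, 1 ≤ t → t < m → splitNum G m t ≤ k * t := by
    intro t ht1 ht2
    refine (ceil_le ht1).1 (le_trans ?_ ((le_max_right _ _).trans ((le_max_right _ _).trans hk)))
    exact Finset.le_sup (f := fun t => ⌈(splitNum G m t : ℚ) / t⌉₊) (mem_Icc.2 ⟨ht1, by omega⟩)
  have hmap : (prs (RG c)).map (ph c) = EE G := map_prs c
  -- matchings as sets of pairs
  have hpairs : ∀ M, IsMm (EE G) m M → ∃ M' ⊆ prs (RG c), PM c M' ∧ M'.card = m ∧
      M = M'.map (ph c) := by
    rintro M ⟨h1, h2, h3⟩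
    rw [← hmap, subset_map_iff] at h1
    obtain ⟨M', h4, rfl⟩ := h1
    exact ⟨M', h4, (pm_iff c M').2 h3, by rwa [card_map] at h2, rfl⟩
  obtain ⟨M0, hM0, hM0', hM0c⟩ : ∃ M' ⊆ prs (RG c), PM c M' ∧ M'.card = m := by
    obtain ⟨e, he⟩ := hne
    obtain ⟨M, hM, -⟩ := hcov e he
    obtain ⟨M', h1, h2, h3, -⟩ := hpairs M hM
    exact ⟨M', h1, h2, h3⟩
  have hmA : m ≤ Fintype.card (SA c) := by
    rw [← hM0c]
    exact card_le_card_of_injOn Prod.fst (fun p _ => mem_coe.2 (mem_univ _))
      fun p hp q hq h => hM0'.1 p (mem_coe.1 hp) q (mem_coe.1 hq) h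
  have hmB : m ≤ Fintype.card (SB c) := by
    rw [← hM0c]
    exact card_le_card_of_injOn Prod.snd (fun p _ => mem_coe.2 (mem_univ _))
      fun p hp q hq h => hM0'.2 p (mem_coe.1 hp) q (mem_coe.1 hq) h
  have hE : (prs (RG c)).card ≤ k * m := by
    rw [← card_map (ph c), hmap]
    exact hk2
  -- degrees
  have hdA : ∀ a, dA (RG c) a ≤ k := by
    intro a
    have h1 : dA (RG c) a = (((prs (RG c)).filter fun p => p.1 ∈ ({a} : Finset (SA c))).map (ph c)).card := by
      rw [card_map, ← sum_dA, sum_singleton]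
    rw [h1]
    have h2 := card_le_of_matchings (t := 1) hk1
      (T := ((prs (RG c)).filter fun p => p.1 ∈ ({a} : Finset (SA c))).map (ph c))
      (by
        rw [← hmap]
        exact map_subset_map.2 (filter_subset _ _))
      (by
        rintro s M ⟨h3, rfl, h4⟩
        refine card_le_one.2 fun e he f hf => h4 e he f hf a.1 ?_ ?_
        · obtain ⟨p, hp, rfl⟩ := mem_map.1 (h3 he)
          have h5 : p.1 = a := mem_singleton.1 (mem_filter.1 hp).2
          rw [← h5]
          exact Sym2.mem_mk_left _ _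
        · obtain ⟨p, hp, rfl⟩ := mem_map.1 (h3 hf)
          have h5 : p.1 = a := mem_singleton.1 (mem_filter.1 hp).2
          rw [← h5]
          exact Sym2.mem_mk_left _ _)
    rwa [mul_one] at h2
  have hdB : ∀ b, dB (RG c) b ≤ k := by
    intro b
    have h1 : dB (RG c) b = (((prs (RG c)).filter fun p => p.2 ∈ ({b} : Finset (SB c))).map (ph c)).card := by
      rw [card_map, ← sum_dB, sum_singleton]
    rw [h1]
    have h2 := card_le_of_matchings (t := 1) hk1
      (T := ((prs (RG c)).filter fun p => p.2 ∈ ({b} : Finset (SB c))).map (ph c))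
      (by
        rw [← hmap]
        exact map_subset_map.2 (filter_subset _ _))
      (by
        rintro s M ⟨h3, rfl, h4⟩
        refine card_le_one.2 fun e he f hf => h4 e he f hf b.1 ?_ ?_
        · obtain ⟨p, hp, rfl⟩ := mem_map.1 (h3 he)
          have h5 : p.2 = b := mem_singleton.1 (mem_filter.1 hp).2
          rw [← h5]
          exact Sym2.mem_mk_right _ _
        · obtain ⟨p, hp, rfl⟩ := mem_map.1 (h3 hf)
          have h5 : p.2 = b := mem_singleton.1 (mem_filter.1 hp).2
          rw [← h5]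
          exact Sym2.mem_mk_right _ _)
    rwa [mul_one] at h2
  -- covers
  have hC : ∀ S : Finset (SA c), (ins (RG c) S).card + k * m ≤
      k * (Fintype.card (SA c) - S.card) + k * (nbr (RG c) S).card := by
    intro S
    set c0 := (Fintype.card (SA c) - S.card) + (nbr (RG c) S).card with hc0
    have hm0 : m ≤ c0 := by
      have h1 := cover_le c hM0 hM0' S
      rw [hM0c] at h1
      omega
    have hkey : (ins (RG c) S).card ≤ k * (c0 - m) := by
      have hsub : (ins (RG c) S).map (ph c) ⊆ EE G := by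
        rw [← hmap]
        exact map_subset_map.2 (filter_subset _ _)
      -- every `[m]`-matching has at most `c0 - m` edges in the set
      have hcnt : ∀ N, IsMm (EE G) m N → (N ∩ (ins (RG c) S).map (ph c)).card ≤ c0 - m := by
        intro N hN
        obtain ⟨N', h1, h2, h3, rfl⟩ := hpairs N hN
        rw [← map_inter, card_map]
        have h4 := cover_le c h1 h2 S
        rw [h3] at h4
        omega
      rcases le_or_gt m (c0 - m) with ht | ht
      · calc (ins (RG c) S).card ≤ (prs (RG c)).card := card_le_card (filter_subset _ _)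
          _ ≤ k * m := hE
          _ ≤ k * (c0 - m) := Nat.mul_le_mul_left k ht
      · by_cases hbig : ∃ s M, IsMm ((ins (RG c) S).map (ph c)) s M ∧ c0 - m < s
        · obtain ⟨s, M, hM, hs⟩ := hbig
          obtain ⟨M1, hM1, -⟩ := exists_sub hM (Nat.succ_le_of_lt hs)
          have hno : ∀ M, IsMm ((ins (RG c) S).map (ph c)) (c0 - m + 1) M →
              ∀ N, IsMm (EE G) m N → ¬ M ⊆ N := by
            intro M hM N hN hMN
            have h1 := hcnt N hN
            have h2 : M ⊆ N ∩ (ins (RG c) S).map (ph c) := subset_inter hMN hM.1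
            have h3 := card_le_card h2
            rw [hM.2.1] at h3
            omega
          rcases Nat.eq_zero_or_pos (c0 - m) with h0 | h0
          · exfalso
            rw [h0] at hM1 hno
            obtain ⟨e, he⟩ := card_eq_one.1 hM1.2.1
            have heT : e ∈ (ins (RG c) S).map (ph c) := hM1.1 (by rw [he]; exact mem_singleton_self _)
            obtain ⟨N, hN, heN⟩ := hcov e (hsub heT)
            refine hno M1 hM1 N hN ?_
            rw [he]
            exact singleton_subset_iff.2 heN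
          · have h1 : IsSplitting G m (c0 - m) ((ins (RG c) S).map (ph c)) := ⟨hsub, ⟨M1, hM1⟩, hno⟩
            have h2 := card_le_splitNum h1
            rw [card_map] at h2
            exact h2.trans (hk3 _ h0 ht)
        · push Not at hbig
          have h1 := card_le_of_matchings hk1 hsub (fun s M hM => hbig s M hM)
          rwa [card_map] at h1
    have h1 : k * (c0 - m) + k * m = k * c0 := by
      rw [← mul_add, Nat.sub_add_cancel hm0]
    have h2 : k * c0 = k * (Fintype.card (SA c) - S.card) + k * (nbr (RG c) S).card := by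
      rw [hc0, mul_add]
    omega
  obtain ⟨F, hF, hF'⟩ := core (RG c) m k hmA hmB hE hdA hdB hC
  refine ⟨fun i => (F i).map (ph c), fun i => ?_, fun e he => ?_⟩
  · obtain ⟨h1, h2, h3, h4⟩ := hF i
    refine ⟨?_, by rw [card_map, h1], (pm_iff c (F i)).1 ⟨h3, h4⟩⟩
    rw [← hmap]
    exact map_subset_map.2 h2
  · rw [← hmap] at he
    obtain ⟨p, hp, rfl⟩ := mem_map.1 he
    obtain ⟨i, hi⟩ := hF' p hp
    exact ⟨i, mem_map_of_mem _ hi⟩

end

/-- The formula for bipartite graphs. -/
theorem exIdx_eq {V : Type} [Finite V] {G : SimpleGraph V} (hG : G.IsBipartite) {m : ℕ}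
    (hm : 1 ≤ m) (hcov : Coverable G m) : exIdx G m = bound G m := by
  classical
  haveI : Fintype V := Fintype.ofFinite V
  obtain ⟨c⟩ := hG
  have h1 : ∃ F : Fin (bound G m) → Finset (Sym2 V), (∀ i, IsMm (EE G) m (F i)) ∧
      ∀ e ∈ EE G, ∃ i, e ∈ F i := by
    rcases (EE G).eq_empty_or_nonempty with h0 | h0
    · have h2 : bound G m ≤ 0 := bound_le hm (fun i => i.elim0) (fun i => i.elim0)
        fun e he => by
          rw [h0] at he
          exact absurd he (notMem_empty _)
      have h3 : bound G m = 0 := Nat.le_zero.1 h2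
      rw [h3]
      exact ⟨fun i => i.elim0, fun i => i.elim0, fun e he => by
        rw [h0] at he
        exact absurd he (notMem_empty _)⟩
    · exact exists_cover c hm hcov le_rfl h0
  refine le_antisymm (Nat.sInf_le h1) ?_
  refine le_csInf ⟨_, h1⟩ ?_
  rintro k ⟨F, hF, hF'⟩
  exact bound_le hm F hF hF'

end Pool.Agent.Q176.EX
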