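import Pool.Agent.Q81.EX.Stm

/-! EX-HHB: bounds of the right hand side (helper176) -/

set_option autoImplicit false

namespace Pool.Agent.Q176.EX

open Pool.Agent.Q81.EX Set

theorem hhb (hGBD : S_GBD) (hFDV : S_FDV) : Pool.Agent.Q81.EX.S_HHB := by
  intro p hp
  obtain ⟨g1, g2, -, -, -⟩ := hGBD p hp
  obtain ⟨f1, -, -, -, f2⟩ := hFDV p hp
  have hG : ∀ s ∈ Ico (0 : ℝ) 1, 0 < GG p s := by
    intro s hs
    have h1 : 0 < 1 - s := by linarith [hs.2]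
    have h2 := (g1 s ⟨hs.1, hs.2.le⟩).1
    have h3 : 0 < (1 - s) ^ 2 / 12 := by positivity
    linarith
  have hub : ∀ s ∈ Ico (0 : ℝ) 1, hh p s ≤ 12 * FF p s / (1 - s) ^ 2 := by
    intro s hs
    have h1 : 0 < 1 - s := by linarith [hs.2]
    have h2 := (g1 s ⟨hs.1, hs.2.le⟩).1
    have h3 : 0 < (1 - s) ^ 2 / 12 := by positivity
    have h4 := (f2 s ⟨hs.1, hs.2.le⟩).1
    calc hh p s = FF p s / GG p s := rfl
      _ ≤ FF p s / ((1 - s) ^ 2 / 12) := div_le_div_of_nonneg_left h4 h3 h2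
      _ = 12 * FF p s / (1 - s) ^ 2 := by
        field_simp
  refine ⟨⟨?_, ?_, ?_⟩, fun s hs => ⟨?_, hub s hs⟩⟩
  · refine ContinuousOn.div ?_ ?_ fun s hs => (hG s hs).ne'
    · exact fun s hs => (f1 s ⟨hs.1, hs.2.le⟩).continuousWithinAt.mono Ico_subset_Icc_self
    · exact fun s hs => (g2 s ⟨hs.1, hs.2.le⟩).continuousWithinAt.mono Ico_subset_Icc_self
  · intro s hs
    exact div_nonneg (f2 s ⟨hs.1, hs.2.le⟩).1 (hG s hs).le
  · intro s hs
    have h1 : 0 < 1 - s := by linarith [hs.2]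
    refine (hub s hs).trans ?_
    have h4 := (f2 s ⟨hs.1, hs.2.le⟩).2
    rw [div_le_div_iff₀ (by positivity) h1]
    have h5 : FF p s * (1 - s) ≤ (1 - s) * (1 - s) := mul_le_mul_of_nonneg_right h4 h1.le
    nlinarith [h5]
  · have h2 := (g1 s ⟨hs.1, hs.2.le⟩).2
    have h4 := (f2 s ⟨hs.1, hs.2.le⟩).1
    calc 1 / 8 * FF p s = FF p s / 8 := by ring
      _ ≤ FF p s / GG p s := div_le_div_of_nonneg_left h4 (hG s hs) h2
      _ = hh p s := rfl

end Pool.Agent.Q176.EX
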