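import Pool.Agent.Q81.EX.Stm

/-! EX-NEM: the set is not empty (helper176) -/

set_option autoImplicit false

namespace Pool.Agent.Q176.EX

open Pool.Agent.Q81.EX Set

theorem nem : Pool.Agent.Q81.EX.S_NEM := by
  have hI1 : ∫ r in (0 : ℝ)..1, r * (8 * r * (1 - r)) = 2 / 3 := by
    have e : ∀ r : ℝ, r * (8 * r * (1 - r)) = 8 * r ^ 2 - 8 * r ^ 3 := fun r => by ring
    simp_rw [e]
    rw [intervalIntegral.integral_sub (Continuous.intervalIntegrable (by fun_prop) _ _)
      (Continuous.intervalIntegrable (by fun_prop) _ _),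
      intervalIntegral.integral_const_mul, intervalIntegral.integral_const_mul, integral_pow,
      integral_pow]
    norm_num
  have hI2 : ∫ r in (0 : ℝ)..1, r ^ 2 * (8 * r * (1 - r)) = 2 / 5 := by
    have e : ∀ r : ℝ, r ^ 2 * (8 * r * (1 - r)) = 8 * r ^ 3 - 8 * r ^ 4 := fun r => by ring
    simp_rw [e]
    rw [intervalIntegral.integral_sub (Continuous.intervalIntegrable (by fun_prop) _ _)
      (Continuous.intervalIntegrable (by fun_prop) _ _),
      intervalIntegral.integral_const_mul, intervalIntegral.integral_const_mul, integral_pow,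
      integral_pow]
    norm_num
  refine ⟨fun r => 8 * r * (1 - r), ⟨?_, ?_, by norm_num, by norm_num, hI1⟩, ?_, ?_⟩
  · exact Continuous.continuousOn (by fun_prop)
  · refine ⟨convex_Icc 0 1, fun x _ y _ a b ha hb hab => ?_⟩
    simp only [smul_eq_mul]
    have hb' : b = 1 - a := by linarith
    subst hb'
    have h1 : 0 ≤ a * (1 - a) := mul_nonneg ha hb
    have h2 : 0 ≤ a * (1 - a) * (x - y) ^ 2 := mul_nonneg h1 (sq_nonneg _)
    nlinarith [h2]
  · unfold DD I2
    rw [hI2]
    unfold dl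
    norm_num
  · intro s hs
    have h1 : 0 ≤ 1 - s := by linarith [hs.2]
    have h0 : 0 ≤ s := hs.1
    have h2 : Real.sqrt (1 - s) * Real.sqrt (1 - s) = 1 - s := Real.mul_self_sqrt h1
    have h3 : 0 ≤ Real.sqrt (1 - s) := Real.sqrt_nonneg _
    have h4 : Real.sqrt (1 - s) ≤ 1 := by
      rw [Real.sqrt_le_left (by norm_num)]
      linarith
    have h5 : (8 : ℝ) ≤ Cc := by
      unfold Cc dl
      norm_num
    have h6 : 1 - s ≤ Real.sqrt (1 - s) := by nlinarith [h2, h3, h4]
    have h7 : 0 ≤ s * Real.sqrt (1 - s) := mul_nonneg h0 h3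
    show 8 * s * (1 - s) ≤ Cc * (s * Real.sqrt (1 - s))
    calc 8 * s * (1 - s) = 8 * (s * (1 - s)) := by ring
      _ ≤ 8 * (s * Real.sqrt (1 - s)) :=
        mul_le_mul_of_nonneg_left (mul_le_mul_of_nonneg_left h6 h0) (by norm_num)
      _ ≤ Cc * (s * Real.sqrt (1 - s)) := mul_le_mul_of_nonneg_right h5 h7

end Pool.Agent.Q176.EX
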